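import Pool.Agent.Run7.h781.DN_INF

set_option autoImplicit false

/-! # DN-LOW: the measure of the energy surface at moderate kinetic energy, from below -/

namespace Run7.h138.DN

open MeasureTheory Set
open Pool.Agent.Y516.NW (E3 Cfg Surf NonW IsFl mom kin pot P2)
open Run7.h852.DN Run7.h781.DN

/-- the boxes -/
def BB (k : ℕ) (ρ η ε : ℝ) : Set (Fin (k + 1) → E3) :=
  Set.pi Set.univ (Fin.cons (Metric.ball (ρ • uu) η)
    (fun i : Fin k => Metric.ball ((4 * ε * ((i : ℝ) + 1)) • uu) ε) : Fin (k + 1) → Set E3)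

theorem mem_BB {k : ℕ} {ρ η ε : ℝ} {Q : Fin (k + 1) → E3} (hQ : Q ∈ BB k ρ η ε) :
    ‖Q 0 - ρ • uu‖ < η ∧ ∀ i : Fin k, ‖Q i.succ - (4 * ε * ((i : ℝ) + 1)) • uu‖ < ε := by
  refine ⟨?_, fun i => ?_⟩
  · have := hQ 0 (mem_univ _)
    rw [Fin.cons_zero, Metric.mem_ball, dist_eq_norm] at this
    exact this
  · have := hQ i.succ (mem_univ _)
    rw [Fin.cons_succ, Metric.mem_ball, dist_eq_norm] at this
    exact this

theorem BB_meas (k : ℕ) (ρ η ε : ℝ) : MeasurableSet (BB k ρ η ε) := by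
  apply MeasurableSet.univ_pi
  intro i
  refine Fin.cases ?_ (fun j => ?_) i
  · rw [Fin.cons_zero]; exact measurableSet_ball
  · rw [Fin.cons_succ]; exact measurableSet_ball

theorem BB_vol (k : ℕ) (ρ : ℝ) {η ε : ℝ} (hη : 0 < η) (hε : 0 < ε) :
    volume (BB k ρ η ε) = ENNReal.ofReal (η ^ 3) * volume (Metric.ball (0 : E3) 1) *
      (ENNReal.ofReal (ε ^ 3) * volume (Metric.ball (0 : E3) 1)) ^ k := by
  rw [BB, volume_pi_pi, Fin.prod_univ_succ, Fin.cons_zero, ball_vol _ _ hη]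
  congr 1
  simp only [Fin.cons_succ, ball_vol _ _ hε]
  rw [Finset.prod_const, Finset.card_univ, Fintype.card_fin]

theorem norm_Q0' {k : ℕ} {ρ η ε : ℝ} (hρ : 0 < ρ) {Q : Fin (k + 1) → E3}
    (hQ : Q ∈ BB k ρ η ε) : ρ - η < ‖Q 0‖ ∧ ‖Q 0‖ < ρ + η := by
  have h1 := (mem_BB hQ).1
  have h2 : ‖ρ • uu‖ = ρ := by rw [uu_smul, abs_of_pos hρ]
  constructor
  · have h3 := norm_sub_norm_le (ρ • uu) (Q 0)
    rw [norm_sub_rev, h2] at h3
    linarith
  · have h3 := norm_sub_norm_le (Q 0) (ρ • uu)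
    rw [h2] at h3
    linarith

/-- positions near the points `4 ε i u` -/
theorem reg2 {k : ℕ} {ε : ℝ} (hε : 0 < ε) {Q : Fin (k + 1) → E3} (hQ0 : 0 < ‖Q 0‖)
    (hn : ∀ i : Fin (k + 1), ‖Q i - (4 * ε * (i : ℝ)) • uu‖ < ε) :
    (∀ i j, i ≠ j → pl Q i ≠ pl Q j) ∧ (∀ i, ‖pl Q i‖ ≤ 4 * ε * (k + 1)) ∧
      ∀ i j, i ≠ j → ¬(i = 0 ∧ j = Fin.last (k + 1)) → ¬(i = Fin.last (k + 1) ∧ j = 0) →
        ε ≤ ‖pl Q i - pl Q j‖ := by
  have h0 : ∀ i : Fin (k + 1), i ≠ 0 → ε ≤ ‖Q i‖ := by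
    intro i hi
    have h1 := hn i
    have h2 : (1 : ℝ) ≤ (i : ℝ) := by
      have : 1 ≤ (i : ℕ) := Nat.one_le_iff_ne_zero.2 fun h => hi (Fin.ext h)
      exact_mod_cast this
    have h3 := norm_sub_norm_le ((4 * ε * (i : ℝ)) • uu) (Q i)
    rw [norm_sub_rev, uu_smul, abs_of_nonneg (by positivity)] at h3
    nlinarith
  have hne : ∀ i j : Fin (k + 1), i ≠ j → ε ≤ ‖Q i - Q j‖ := by
    intro i j hij
    have h1 := hn i
    have h2 := hn j
    have h3 : ‖(4 * ε * (i : ℝ)) • uu - (4 * ε * (j : ℝ)) • uu‖ ≤ 2 * ε + ‖Q i - Q j‖ := by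
      calc ‖(4 * ε * (i : ℝ)) • uu - (4 * ε * (j : ℝ)) • uu‖
          = ‖(Q j - (4 * ε * (j : ℝ)) • uu) - (Q i - (4 * ε * (i : ℝ)) • uu) + (Q i - Q j)‖ := by
            congr 1; abel
        _ ≤ ‖(Q j - (4 * ε * (j : ℝ)) • uu) - (Q i - (4 * ε * (i : ℝ)) • uu)‖ + ‖Q i - Q j‖ :=
            norm_add_le _ _
        _ ≤ (‖Q j - (4 * ε * (j : ℝ)) • uu‖ + ‖Q i - (4 * ε * (i : ℝ)) • uu‖) + ‖Q i - Q j‖ := by
            gcongr; exact norm_sub_le _ _
        _ ≤ 2 * ε + ‖Q i - Q j‖ := by linarith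
    rw [← sub_smul, uu_smul, ← mul_sub, abs_mul, abs_of_pos (by positivity : 0 < 4 * ε)] at h3
    have h4 : (1 : ℝ) ≤ |(i : ℝ) - (j : ℝ)| := by
      have h5 : (1 : ℤ) ≤ |((i : ℕ) : ℤ) - ((j : ℕ) : ℤ)| := by
        apply Int.one_le_abs
        intro h6
        apply hij
        apply Fin.ext
        omega
      have h7 : ((|((i : ℕ) : ℤ) - ((j : ℕ) : ℤ)| : ℤ) : ℝ) = |(i : ℝ) - (j : ℝ)| := by
        push_cast
        rfl
      rw [← h7]
      exact_mod_cast h5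
    nlinarith
  refine ⟨fun i j => ?_, fun i => ?_, fun i j => ?_⟩
  · refine Fin.lastCases ?_ (fun i => ?_) i
    · refine Fin.lastCases ?_ (fun j => ?_) j
      · intro h; exact absurd rfl h
      · intro _
        rw [pl_last, pl_castSucc]
        intro h
        by_cases hj : j = 0
        · rw [hj] at h
          rw [← h, norm_zero] at hQ0
          exact lt_irrefl _ hQ0
        · have := h0 j hj
          rw [← h, norm_zero] at this
          linarith
    · refine Fin.lastCases ?_ (fun j => ?_) j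
      · intro _
        rw [pl_last, pl_castSucc]
        intro h
        by_cases hj : i = 0
        · rw [hj] at h
          rw [h, norm_zero] at hQ0
          exact lt_irrefl _ hQ0
        · have := h0 i hj
          rw [h, norm_zero] at this
          linarith
      · intro h
        rw [pl_castSucc, pl_castSucc]
        intro h'
        have := hne i j fun h'' => h (by rw [h''])
        rw [h', sub_self, norm_zero] at this
        linarith
  · refine Fin.lastCases ?_ (fun i => ?_) i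
    · rw [pl_last, norm_zero]; positivity
    · rw [pl_castSucc]
      have h1 := hn i
      have h2 := norm_sub_norm_le (Q i) ((4 * ε * (i : ℝ)) • uu)
      rw [uu_smul, abs_of_nonneg (by positivity)] at h2
      have h3 : (i : ℝ) ≤ k := by
        have := i.2
        exact_mod_cast Nat.lt_succ_iff.1 this
      nlinarith
  · refine Fin.lastCases ?_ (fun i => ?_) i
    · refine Fin.lastCases ?_ (fun j => ?_) j
      · intro h; exact absurd rfl h
      · intro _ _ h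
        rw [pl_last, pl_castSucc, zero_sub, norm_neg]
        refine h0 j fun hj => h ⟨rfl, ?_⟩
        rw [hj]; rfl
    · refine Fin.lastCases ?_ (fun j => ?_) j
      · intro _ h _
        rw [pl_last, pl_castSucc, sub_zero]
        refine h0 i fun hj => h ⟨?_, rfl⟩
        rw [hj]; rfl
      · intro h _ _
        rw [pl_castSucc, pl_castSucc]
        exact hne i j fun h'' => h (by rw [h''])

/-- the potential energy is almost that of the pair `0`, `n` -/
theorem pot_bounds {k : ℕ} {m : Fin (k + 1 + 1) → ℝ} (hm : ∀ i, 0 < m i) {ε : ℝ} (hε : 0 < ε)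
    {Q : Fin (k + 1) → E3} (hQ0 : 0 < ‖Q 0‖)
    (hn : ∀ i : Fin (k + 1), ‖Q i - (4 * ε * (i : ℝ)) • uu‖ < ε) :
    m 0 * m (Fin.last (k + 1)) / ‖Q 0‖ ≤ pot m (conf m Q) ∧
      pot m (conf m Q) ≤ m 0 * m (Fin.last (k + 1)) / ‖Q 0‖ + (∑ i, m i) ^ 2 / (2 * ε) := by
  obtain ⟨-, -, hd⟩ := reg2 hε hQ0 hn
  obtain ⟨c, hc⟩ : ∃ c : ℝ, c = m 0 * m (Fin.last (k + 1)) / ‖Q 0‖ / 2 := ⟨_, rfl⟩
  have hc0 : 0 ≤ c := by
    rw [hc]; have := hm 0; have := hm (Fin.last (k + 1)); positivity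
  obtain ⟨δ, hδ⟩ : ∃ δ : Fin (k + 1 + 1) → Fin (k + 1 + 1) → ℝ, δ = fun i j =>
    (if i = 0 then (1 : ℝ) else 0) * (if j = Fin.last (k + 1) then c else 0) +
      (if i = Fin.last (k + 1) then (1 : ℝ) else 0) * (if j = 0 then c else 0) := ⟨_, rfl⟩
  have hsum : ∑ i, ∑ j, δ i j = m 0 * m (Fin.last (k + 1)) / ‖Q 0‖ := by
    rw [hδ]
    simp only [Finset.sum_add_distrib, ← Finset.mul_sum, ← Finset.sum_mul, Finset.sum_ite_eq',
      Finset.mem_univ, if_true]
    rw [hc]; ring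
  have hne0 : (0 : Fin (k + 1 + 1)) ≠ Fin.last (k + 1) := by
    intro h
    have := congrArg Fin.val h
    simp at this
  have hpl0 : pl Q 0 = Q 0 := pl_castSucc Q 0
  have h1 : ∀ i j, δ i j ≤ m i * m j / ‖conf m Q i - conf m Q j‖ / 2 ∧
      m i * m j / ‖conf m Q i - conf m Q j‖ / 2 ≤ m i * m j * (1 / (2 * ε)) + δ i j := by
    intro i j
    rw [conf_sub]
    have hi := hm i
    have hj := hm j
    by_cases hA : i = 0 ∧ j = Fin.last (k + 1)
    · obtain ⟨rfl, rfl⟩ := hA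
      rw [pl_last, hpl0, sub_zero, hδ]
      simp only [if_true, if_neg hne0, one_mul, zero_mul, add_zero]
      rw [hc]
      refine ⟨le_rfl, ?_⟩
      have : 0 ≤ m 0 * m (Fin.last (k + 1)) * (1 / (2 * ε)) := by positivity
      linarith
    · by_cases hB : i = Fin.last (k + 1) ∧ j = 0
      · obtain ⟨rfl, rfl⟩ := hB
        rw [pl_last, hpl0, zero_sub, norm_neg, hδ]
        simp only [if_true, if_neg hne0, if_neg hne0.symm, one_mul, zero_mul, zero_add]
        rw [hc]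
        refine ⟨le_of_eq (by ring), ?_⟩
        have : 0 ≤ m (Fin.last (k + 1)) * m 0 * (1 / (2 * ε)) := by positivity
        have h2 : m (Fin.last (k + 1)) * m 0 / ‖Q 0‖ / 2 =
          m 0 * m (Fin.last (k + 1)) / ‖Q 0‖ / 2 := by ring
        linarith
      · have hz : δ i j = 0 := by
          rw [hδ]
          simp only
          have e1 : (if i = 0 then (1 : ℝ) else 0) * (if j = Fin.last (k + 1) then c else 0) = 0 := by
            by_cases h : i = 0
            · rw [if_neg (fun h' => hA ⟨h, h'⟩), mul_zero]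
            · rw [if_neg h, zero_mul]
          have e2 : (if i = Fin.last (k + 1) then (1 : ℝ) else 0) * (if j = 0 then c else 0) = 0 := by
            by_cases h : i = Fin.last (k + 1)
            · rw [if_neg (fun h' => hB ⟨h, h'⟩), mul_zero]
            · rw [if_neg h, zero_mul]
          rw [e1, e2, add_zero]
        rw [hz, add_zero]
        refine ⟨by positivity, ?_⟩
        by_cases hij : i = j
        · rw [hij, sub_self, norm_zero, div_zero, zero_div]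
          positivity
        · have h3 := hd i j hij hA hB
          have h4 : m i * m j / ‖pl Q i - pl Q j‖ ≤ m i * m j / ε :=
            div_le_div_of_nonneg_left (by positivity) hε h3
          have h5 : m i * m j * (1 / (2 * ε)) = m i * m j / ε / 2 := by
            field_simp
          rw [h5]
          linarith
  constructor
  · rw [← hsum]
    unfold pot
    exact Finset.sum_le_sum fun i _ => Finset.sum_le_sum fun j _ => (h1 i j).1
  · have h2 : pot m (conf m Q) ≤ ∑ i, ∑ j, (m i * m j * (1 / (2 * ε)) + δ i j) := by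
      unfold pot
      exact Finset.sum_le_sum fun i _ => Finset.sum_le_sum fun j _ => (h1 i j).2
    refine h2.trans (le_of_eq ?_)
    simp only [Finset.sum_add_distrib]
    rw [hsum, add_comm]
    congr 1
    simp only [← Finset.sum_mul, ← Finset.mul_sum]
    ring

theorem exists_ofReal_le {v : ENNReal} (hv : v ≠ 0) : ∃ x : ℝ, 0 < x ∧ ENNReal.ofReal x ≤ v := by
  by_cases h : v = ⊤
  · exact ⟨1, one_pos, h ▸ le_top⟩
  · exact ⟨v.toReal, ENNReal.toReal_pos hv h, ENNReal.ofReal_toReal_le⟩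

theorem t_DN_LOW : LowStm := by
  intro n hn2 m hm E hE K0 hK0
  obtain ⟨k, rfl⟩ : ∃ k, n = k + 1 := ⟨n - 1, by omega⟩
  obtain ⟨M, hM⟩ : ∃ M : ℝ, M = m 0 * m (Fin.last (k + 1)) := ⟨_, rfl⟩
  have hM0 : 0 < M := by rw [hM]; have := hm 0; have := hm (Fin.last (k + 1)); positivity
  obtain ⟨r1, hr1⟩ : ∃ r : ℝ, r = M / (-E + K0 / 2) := ⟨_, rfl⟩
  obtain ⟨r2, hr2⟩ : ∃ r : ℝ, r = M / (-E + K0 / 4) := ⟨_, rfl⟩
  have hd1 : 0 < -E + K0 / 2 := by linarith
  have hd2 : 0 < -E + K0 / 4 := by linarith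
  have hr1p : 0 < r1 := by rw [hr1]; positivity
  have hr2p : 0 < r2 := by rw [hr2]; positivity
  have hr12 : r1 < r2 := by
    rw [hr1, hr2]
    exact div_lt_div_of_pos_left hM0 hd2 (by linarith)
  obtain ⟨ρ, hρ⟩ : ∃ ρ : ℝ, ρ = (r1 + r2) / 2 := ⟨_, rfl⟩
  obtain ⟨η, hη⟩ : ∃ η : ℝ, η = (r2 - r1) / 2 := ⟨_, rfl⟩
  have hρp : 0 < ρ := by rw [hρ]; linarith
  have hηp : 0 < η := by rw [hη]; linarith
  obtain ⟨v, hv0, hv⟩ : ∃ x : ℝ, 0 < x ∧
      ENNReal.ofReal x ≤ volume {P : Fin (k + 1) → E3 | kin m (mom P) ≤ 1} := by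
    apply exists_ofReal_le
    obtain ⟨R', -, -, h⟩ := Pool.Agent.Y317.NW.ball (k + 1) m hm
    exact h.ne'
  obtain ⟨w, hw0, hw⟩ : ∃ x : ℝ, 0 < x ∧ ENNReal.ofReal x ≤ volume (Metric.ball (0 : E3) 1) :=
    exists_ofReal_le V1_pos.ne'
  obtain ⟨e, he⟩ : ∃ e : ℝ, e = (3 * ((k + 1 : ℕ) : ℝ) - 2) / 2 := ⟨_, rfl⟩
  have he0 : 0 ≤ e := by
    rw [he]
    have : (2 : ℝ) ≤ ((k + 1 : ℕ) : ℝ) := by exact_mod_cast hn2
    linarith
  obtain ⟨a, ha⟩ : ∃ a : ℝ, a = (K0 / 4) ^ e := ⟨_, rfl⟩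
  have ha0 : 0 < a := by rw [ha]; exact Real.rpow_pos_of_pos (by linarith) _
  obtain ⟨S, hS⟩ : ∃ S : ℝ, S = ∑ i, m i := ⟨_, rfl⟩
  have hk1 : (0 : ℝ) < 8 * ((k : ℝ) + 1) := by positivity
  refine ⟨a * v * (η ^ 3 * w) * ((1 / (8 * ((k : ℝ) + 1))) ^ 3 * w) ^ k,
    8 * ((k : ℝ) + 1) * (r2 + 2 * S ^ 2 / K0), by positivity, by positivity, fun R hR => ?_⟩
  obtain ⟨ε, hε⟩ : ∃ ε : ℝ, ε = R / (8 * ((k : ℝ) + 1)) := ⟨_, rfl⟩
  have hε1 : r2 + 2 * S ^ 2 / K0 ≤ ε := by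
    rw [hε, le_div_iff₀ hk1]; linarith
  have hS2 : 0 ≤ 2 * S ^ 2 / K0 := by positivity
  have hεr : r2 ≤ ε := by linarith
  have hεp : 0 < ε := by linarith
  have hεS : S ^ 2 / (2 * ε) ≤ K0 / 4 := by
    have h1 : 2 * S ^ 2 / K0 ≤ ε := by linarith
    rw [div_le_iff₀ hK0] at h1
    rw [div_le_iff₀ (by positivity)]
    nlinarith
  have hεR : 4 * ε * ((k : ℝ) + 1) = R / 2 := by
    rw [hε]; field_simp; ring
  -- properties of the points of the box
  have hbox : ∀ Q ∈ BB k ρ η ε, Q ∈ RegA m E R ∧ K0 / 4 ≤ ke m E Q ∧ ke m E Q ≤ K0 := by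
    intro Q hQ
    obtain ⟨h1, h2⟩ := norm_Q0' hρp hQ
    have h1' : r1 < ‖Q 0‖ := by rw [hρ, hη] at h1; linarith
    have h2' : ‖Q 0‖ < r2 := by rw [hρ, hη] at h2; linarith
    have hQ0 : 0 < ‖Q 0‖ := by linarith
    have hnr : ∀ i : Fin (k + 1), ‖Q i - (4 * ε * (i : ℝ)) • uu‖ < ε := by
      intro i
      refine Fin.cases ?_ (fun j => ?_) i
      · simp only [Fin.val_zero, Nat.cast_zero, mul_zero, zero_smul, sub_zero]
        linarith
      · have := (mem_BB hQ).2 j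
        rw [Fin.val_succ, Nat.cast_add, Nat.cast_one]
        exact this
    obtain ⟨g1, g2, -⟩ := reg2 hεp hQ0 hnr
    obtain ⟨p1, p2⟩ := pot_bounds hm hεp hQ0 hnr
    rw [← hM] at p1 p2
    rw [← hS] at p2
    have q1 : M / ‖Q 0‖ ≤ -E + K0 / 2 := by
      rw [div_le_iff₀ hQ0]
      have : r1 * (-E + K0 / 2) = M := by rw [hr1]; exact div_mul_cancel₀ _ hd1.ne'
      nlinarith
    have q2 : -E + K0 / 4 ≤ M / ‖Q 0‖ := by
      rw [le_div_iff₀ hQ0]
      have : r2 * (-E + K0 / 4) = M := by rw [hr2]; exact div_mul_cancel₀ _ hd2.ne'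
      nlinarith
    have k1 : K0 / 4 ≤ ke m E Q := by rw [ke]; linarith
    have k2 : ke m E Q ≤ K0 := by rw [ke]; linarith
    refine ⟨⟨g1, fun i j => ?_, by linarith⟩, k1, k2⟩
    have := norm_sub_le (pl Q i) (pl Q j)
    have := g2 i
    have := g2 j
    linarith
  have hint : ∀ Q ∈ BB k ρ η ε, ENNReal.ofReal a * ENNReal.ofReal v ≤
      ENNReal.ofReal (ke m E Q ^ ((3 * ((k + 1 : ℕ) : ℝ) - 2) / 2)) *
        volume (Fib m E (Surf m E) Q) := by
    intro Q hQ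
    obtain ⟨⟨h1, -, h3⟩, h4, -⟩ := hbox Q hQ
    apply mul_le_mul' (ENNReal.ofReal_le_ofReal ?_) ?_
    · rw [← he, ha]
      exact Real.rpow_le_rpow (by linarith) h4 he0
    · refine hv.trans ?_
      rw [← measure_sdiff_null (null_zero k)]
      exact measure_mono (fib_sub hm h1 h3)
  have hvol : ENNReal.ofReal (η ^ 3 * w) * ENNReal.ofReal (ε ^ 3 * w) ^ k ≤
      volume (BB k ρ η ε) := by
    rw [BB_vol k ρ hηp hεp]
    apply mul_le_mul'
    · rw [ENNReal.ofReal_mul (by positivity)]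
      gcongr
    · apply pow_le_pow_left'
      rw [ENNReal.ofReal_mul (by positivity)]
      gcongr
  calc ENNReal.ofReal (a * v * (η ^ 3 * w) * ((1 / (8 * ((k : ℝ) + 1))) ^ 3 * w) ^ k *
        R ^ (3 * (k + 1 - 1)))
      = ENNReal.ofReal ((a * v) * ((η ^ 3 * w) * (ε ^ 3 * w) ^ k)) := by
        congr 1
        have e1 : ε ^ 3 * w = (1 / (8 * ((k : ℝ) + 1))) ^ 3 * w * R ^ 3 := by rw [hε]; ring
        rw [e1, mul_pow _ (R ^ 3) k, ← pow_mul, Nat.add_sub_cancel]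
        ring
    _ = (ENNReal.ofReal a * ENNReal.ofReal v) *
          (ENNReal.ofReal (η ^ 3 * w) * ENNReal.ofReal (ε ^ 3 * w) ^ k) := by
        rw [ENNReal.ofReal_mul (by positivity), ENNReal.ofReal_mul ha0.le,
          ENNReal.ofReal_mul (by positivity), ENNReal.ofReal_pow (by positivity)]
    _ ≤ (ENNReal.ofReal a * ENNReal.ofReal v) * volume (BB k ρ η ε) := by gcongr
    _ = ∫⁻ _ in BB k ρ η ε, ENNReal.ofReal a * ENNReal.ofReal v := by
        rw [setLIntegral_const]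
    _ ≤ ∫⁻ Q in BB k ρ η ε, ENNReal.ofReal (ke m E Q ^ ((3 * ((k + 1 : ℕ) : ℝ) - 2) / 2)) *
        volume (Fib m E (Surf m E) Q) := setLIntegral_mono' (BB_meas k ρ η ε) hint
    _ ≤ _ := by
        rw [lio]
        exact lintegral_mono_set fun Q hQ => ⟨(hbox Q hQ).1, (hbox Q hQ).2.2⟩

end Run7.h138.DN
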