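import Mathlib

/-!
Edge-magic total labelings: the definition, invariance under isomorphism, and a criterion for the
grids `P_m □ P_n` in terms of three label tables (vertices, horizontal edges, vertical edges).
-/

open SimpleGraph

namespace Run7.h138

/-- A graph `G` on `V` is edge-magic total: there are a bijection `l` from the disjoint union of
the vertex set and the edge set onto `{1, …, |V| + |E|}` and a constant `k` such that
`l x + l (xy) + l y = k` for every edge `xy`. -/
def EdgeMagicTotal {V : Type*} (G : SimpleGraph V) : Prop :=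
  ∃ (l : V ⊕ G.edgeSet → ℕ) (k : ℕ),
    Set.BijOn l Set.univ (Set.Icc 1 (Nat.card V + Nat.card G.edgeSet)) ∧
    ∀ (x y : V) (h : G.Adj x y),
      l (Sum.inl x) + l (Sum.inr ⟨s(x, y), h⟩) + l (Sum.inl y) = k

theorem EdgeMagicTotal.of_iso {V W : Type*} {G : SimpleGraph V} {H : SimpleGraph W}
    (e : G ≃g H) (hG : EdgeMagicTotal G) : EdgeMagicTotal H := by
  obtain ⟨l, k, hb, hk⟩ := hG
  have hcV : Nat.card V = Nat.card W := Nat.card_congr e.toEquiv
  have hcE : Nat.card G.edgeSet = Nat.card H.edgeSet := Nat.card_congr e.mapEdgeSet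
  refine ⟨fun z => l (Sum.map e.symm e.mapEdgeSet.symm z), k, ?_, ?_⟩
  · rw [← hcV, ← hcE]
    have hbij : Function.Bijective (Sum.map e.symm e.mapEdgeSet.symm) :=
      (Equiv.sumCongr e.symm.toEquiv e.mapEdgeSet.symm).bijective
    exact hb.comp (Set.bijOn_univ.mpr hbij)
  · intro x y h
    have h' : G.Adj (e.symm x) (e.symm y) := e.symm.map_rel_iff.mpr h
    exact hk _ _ h'

/-- index type of the edges of the `m × n` grid -/
abbrev GridIdx (m n : ℕ) : Type := (Fin (m - 1) × Fin n) ⊕ (Fin m × Fin (n - 1))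

theorem adjH {m n : ℕ} (j : Fin (m - 1)) (i : Fin n) :
    (pathGraph m □ pathGraph n).Adj (⟨j.1, by omega⟩, i) (⟨j.1 + 1, by omega⟩, i) := by
  rw [boxProd_adj]
  left
  exact ⟨pathGraph_adj.mpr (Or.inl rfl), rfl⟩

theorem adjV {m n : ℕ} (j : Fin m) (i : Fin (n - 1)) :
    (pathGraph m □ pathGraph n).Adj (j, ⟨i.1, by omega⟩) (j, ⟨i.1 + 1, by omega⟩) := by
  rw [boxProd_adj]
  right
  exact ⟨pathGraph_adj.mpr (Or.inl rfl), rfl⟩

/-- the edge with a given index -/
def gridEdge (m n : ℕ) : GridIdx m n → (pathGraph m □ pathGraph n).edgeSet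
  | Sum.inl p => ⟨s((⟨p.1.1, by omega⟩, p.2), (⟨p.1.1 + 1, by omega⟩, p.2)), adjH p.1 p.2⟩
  | Sum.inr p => ⟨s((p.1, ⟨p.2.1, by omega⟩), (p.1, ⟨p.2.1 + 1, by omega⟩)), adjV p.1 p.2⟩

theorem gridEdge_inl {m n : ℕ} (p : Fin (m - 1) × Fin n) :
    gridEdge m n (Sum.inl p) =
      ⟨s((⟨p.1.1, by omega⟩, p.2), (⟨p.1.1 + 1, by omega⟩, p.2)), adjH p.1 p.2⟩ := rfl

theorem gridEdge_inr {m n : ℕ} (p : Fin m × Fin (n - 1)) :
    gridEdge m n (Sum.inr p) =
      ⟨s((p.1, ⟨p.2.1, by omega⟩), (p.1, ⟨p.2.1 + 1, by omega⟩)), adjV p.1 p.2⟩ := rfl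

theorem gridEdge_injective (m n : ℕ) : Function.Injective (gridEdge m n) := by
  rintro (⟨a, b⟩ | ⟨a, b⟩) (⟨c, d⟩ | ⟨c, d⟩) h
  · rw [gridEdge_inl, gridEdge_inl, Subtype.mk.injEq, Sym2.eq_iff] at h
    simp only [Prod.mk.injEq, Fin.mk.injEq] at h
    have : a = c ∧ b = d := by
      rcases h with h | h
      · exact ⟨Fin.ext h.1.1, h.1.2⟩
      · omega
    rw [this.1, this.2]
  · rw [gridEdge_inl, gridEdge_inr, Subtype.mk.injEq, Sym2.eq_iff] at h
    simp only [Prod.mk.injEq, Fin.ext_iff] at h
    omega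
  · rw [gridEdge_inl, gridEdge_inr, Subtype.mk.injEq, Sym2.eq_iff] at h
    simp only [Prod.mk.injEq, Fin.ext_iff] at h
    omega
  · rw [gridEdge_inr, gridEdge_inr, Subtype.mk.injEq, Sym2.eq_iff] at h
    simp only [Prod.mk.injEq, Fin.mk.injEq] at h
    have : a = c ∧ b = d := by
      rcases h with h | h
      · exact ⟨h.1.1, Fin.ext h.1.2⟩
      · omega
    rw [this.1, this.2]

theorem gridEdge_surjective (m n : ℕ) : Function.Surjective (gridEdge m n) := by
  rintro ⟨e, he⟩
  induction e using Sym2.ind with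
  | _ x y =>
    obtain ⟨a, b⟩ := x
    obtain ⟨c, d⟩ := y
    have he' : (pathGraph m □ pathGraph n).Adj (a, b) (c, d) := he
    rw [boxProd_adj, pathGraph_adj, pathGraph_adj] at he'
    simp only at he'
    have hc := c.2
    have ha := a.2
    have hb := b.2
    have hd := d.2
    rcases he' with ⟨h | h, h2⟩ | ⟨h | h, h2⟩
    · refine ⟨Sum.inl (⟨a.1, by omega⟩, b), ?_⟩
      rw [gridEdge_inl]
      subst h2
      apply Subtype.ext
      rw [Sym2.eq_iff]
      left
      exact ⟨rfl, by simp only [Prod.mk.injEq, and_true]; exact Fin.ext h⟩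
    · refine ⟨Sum.inl (⟨c.1, by omega⟩, d), ?_⟩
      rw [gridEdge_inl]
      subst h2
      apply Subtype.ext
      rw [Sym2.eq_iff]
      right
      exact ⟨rfl, by simp only [Prod.mk.injEq, and_true]; exact Fin.ext h⟩
    · refine ⟨Sum.inr (a, ⟨b.1, by omega⟩), ?_⟩
      rw [gridEdge_inr]
      subst h2
      apply Subtype.ext
      rw [Sym2.eq_iff]
      left
      exact ⟨rfl, by simp only [Prod.mk.injEq, true_and]; exact Fin.ext h⟩
    · refine ⟨Sum.inr (c, ⟨d.1, by omega⟩), ?_⟩
      rw [gridEdge_inr]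
      subst h2
      apply Subtype.ext
      rw [Sym2.eq_iff]
      right
      exact ⟨rfl, by simp only [Prod.mk.injEq, true_and]; exact Fin.ext h⟩

/-- the edges of the grid, indexed -/
noncomputable def gridEquiv (m n : ℕ) : GridIdx m n ≃ (pathGraph m □ pathGraph n).edgeSet :=
  Equiv.ofBijective _ ⟨gridEdge_injective m n, gridEdge_surjective m n⟩

theorem gridEquiv_apply (m n : ℕ) (x : GridIdx m n) : gridEquiv m n x = gridEdge m n x := rfl

/-- the label table as one function -/
def tableFun (m n : ℕ) (lv lh lw : ℕ → ℕ → ℕ) : (Fin m × Fin n) ⊕ GridIdx m n → ℕ :=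
  Sum.elim (fun p => lv p.1 p.2) (Sum.elim (fun p => lh p.1 p.2) (fun p => lw p.1 p.2))

/-- Criterion: three label tables give an edge-magic total labeling of the grid. Here `lv j i` is
the label of the vertex in column `j` and row `i`, `lh j i` that of the edge from `(j, i)` to
`(j + 1, i)` and `lw j i` that of the edge from `(j, i)` to `(j, i + 1)`. -/
theorem grid_emt (m n : ℕ) (lv lh lw : ℕ → ℕ → ℕ) (k : ℕ)
    (hinj : Function.Injective (tableFun m n lv lh lw))
    (hrange : ∀ x, tableFun m n lv lh lw x ∈ Set.Icc 1 (m * n + ((m - 1) * n + m * (n - 1))))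
    (hH : ∀ j i, j + 1 < m → i < n → lv j i + lh j i + lv (j + 1) i = k)
    (hV : ∀ j i, j < m → i + 1 < n → lv j i + lw j i + lv j (i + 1) = k) :
    EdgeMagicTotal (pathGraph m □ pathGraph n) := by
  have hcV : Nat.card (Fin m × Fin n) = m * n := by simp
  have hcE : Nat.card (pathGraph m □ pathGraph n).edgeSet = (m - 1) * n + m * (n - 1) := by
    rw [← Nat.card_congr (gridEquiv m n)]
    simp
  refine ⟨fun z => tableFun m n lv lh lw (Sum.map id (gridEquiv m n).symm z), k, ?_, ?_⟩
  · rw [hcV, hcE]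
    have hbij : Function.Bijective
        (Sum.map id (gridEquiv m n).symm :
          (Fin m × Fin n) ⊕ (pathGraph m □ pathGraph n).edgeSet → _) :=
      (Equiv.sumCongr (Equiv.refl _) (gridEquiv m n).symm).bijective
    have h1 : Set.BijOn (tableFun m n lv lh lw) Set.univ
        (Set.Icc 1 (m * n + ((m - 1) * n + m * (n - 1)))) := by
      refine ⟨fun x _ => hrange x, hinj.injOn, ?_⟩
      have hcard : Fintype.card ((Fin m × Fin n) ⊕ GridIdx m n)
          = (Finset.Icc 1 (m * n + ((m - 1) * n + m * (n - 1)))).card := by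
        simp
      have himg : Finset.univ.image (tableFun m n lv lh lw)
          = Finset.Icc 1 (m * n + ((m - 1) * n + m * (n - 1))) := by
        apply Finset.eq_of_subset_of_card_le
        · intro y hy
          rw [Finset.mem_image] at hy
          obtain ⟨x, -, rfl⟩ := hy
          exact Finset.mem_Icc.mpr (hrange x)
        · rw [Finset.card_image_of_injective _ hinj, Finset.card_univ, hcard]
      intro y hy
      have : y ∈ Finset.univ.image (tableFun m n lv lh lw) := by
        rw [himg]; exact Finset.mem_Icc.mpr hy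
      rw [Finset.mem_image] at this
      obtain ⟨x, -, rfl⟩ := this
      exact ⟨x, Set.mem_univ _, rfl⟩
    exact h1.comp (Set.bijOn_univ.mpr hbij)
  · rintro ⟨a, b⟩ ⟨c, d⟩ h
    have h' := h
    rw [boxProd_adj, pathGraph_adj, pathGraph_adj] at h'
    simp only at h'
    rcases h' with ⟨h1 | h1, h2⟩ | ⟨h1 | h1, h2⟩
    · subst h2
      have he : (⟨s((a, b), (c, b)), h⟩ : (pathGraph m □ pathGraph n).edgeSet)
          = gridEquiv m n (Sum.inl (⟨a.1, by omega⟩, b)) := by
        rw [gridEquiv_apply, gridEdge_inl]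
        apply Subtype.ext
        rw [Sym2.eq_iff]
        left
        exact ⟨rfl, by simp only [Prod.mk.injEq, and_true]; exact (Fin.ext h1).symm⟩
      simp only [Sum.map_inl, Sum.map_inr, he, Equiv.symm_apply_apply, id]
      have := hH a.1 b.1 (by omega) b.2
      rw [h1] at this
      exact this
    · subst h2
      have he : (⟨s((a, b), (c, b)), h⟩ : (pathGraph m □ pathGraph n).edgeSet)
          = gridEquiv m n (Sum.inl (⟨c.1, by omega⟩, b)) := by
        rw [gridEquiv_apply, gridEdge_inl]
        apply Subtype.ext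
        rw [Sym2.eq_iff]
        right
        exact ⟨by simp only [Prod.mk.injEq, and_true]; exact (Fin.ext h1).symm, rfl⟩
      simp only [Sum.map_inl, Sum.map_inr, he, Equiv.symm_apply_apply, id]
      have := hH c.1 b.1 (by omega) b.2
      rw [h1] at this
      simp only [tableFun, Sum.elim_inl, Sum.elim_inr]
      omega
    · subst h2
      have he : (⟨s((a, b), (a, d)), h⟩ : (pathGraph m □ pathGraph n).edgeSet)
          = gridEquiv m n (Sum.inr (a, ⟨b.1, by omega⟩)) := by
        rw [gridEquiv_apply, gridEdge_inr]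
        apply Subtype.ext
        rw [Sym2.eq_iff]
        left
        exact ⟨rfl, by simp only [Prod.mk.injEq, true_and]; exact (Fin.ext h1).symm⟩
      simp only [Sum.map_inl, Sum.map_inr, he, Equiv.symm_apply_apply, id]
      have := hV a.1 b.1 a.2 (by omega)
      rw [h1] at this
      exact this
    · subst h2
      have he : (⟨s((a, b), (a, d)), h⟩ : (pathGraph m □ pathGraph n).edgeSet)
          = gridEquiv m n (Sum.inr (a, ⟨d.1, by omega⟩)) := by
        rw [gridEquiv_apply, gridEdge_inr]
        apply Subtype.ext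
        rw [Sym2.eq_iff]
        right
        exact ⟨by simp only [Prod.mk.injEq, true_and]; exact (Fin.ext h1).symm, rfl⟩
      simp only [Sum.map_inl, Sum.map_inr, he, Equiv.symm_apply_apply, id]
      have := hV a.1 d.1 a.2 (by omega)
      rw [h1] at this
      simp only [tableFun, Sum.elim_inl, Sum.elim_inr]
      omega

/-- Transposition. -/
theorem grid_comm {m n : ℕ} (h : EdgeMagicTotal (pathGraph m □ pathGraph n)) :
    EdgeMagicTotal (pathGraph n □ pathGraph m) :=
  h.of_iso (boxProdComm (pathGraph m) (pathGraph n))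

end Run7.h138
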