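import Pool.Agent.Run7.h138.EmtBase

/-!
Edge-magic total labelings of the grids `P_m □ P_n` with exactly one of `m`, `n` even.
-/

open SimpleGraph

namespace Run7.h138

/-- Positions `a w + o` with `o` below the window length determine `w` and `o`. -/
theorem win_inj {a len : ℕ → ℕ} (ha : ∀ w, a (w + 1) = a w + len w) {w w' o o' : ℕ}
    (ho : o < len w) (ho' : o' < len w') (h : a w + o = a w' + o') : w = w' ∧ o = o' := by
  have mono : ∀ d w, a (w + 1) ≤ a (w + 1 + d) := by
    intro d
    induction d with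
    | zero => intro w; exact le_refl _
    | succ d ih =>
      intro w
      calc a (w + 1) ≤ a (w + 1 + d) := ih w
        _ ≤ a (w + 1 + d) + len (w + 1 + d) := Nat.le_add_right _ _
        _ = a (w + 1 + (d + 1)) := by rw [← ha]; rfl
  rcases lt_trichotomy w w' with hlt | heq | hgt
  · exfalso
    obtain ⟨d, hd⟩ := Nat.exists_eq_add_of_le hlt
    have h1 := mono d w
    rw [show w + 1 + d = w' by omega] at h1
    rw [ha] at h1
    omega
  · subst heq
    exact ⟨rfl, by omega⟩
  · exfalso
    obtain ⟨d, hd⟩ := Nat.exists_eq_add_of_le hgt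
    have h1 := mono d w'
    rw [show w' + 1 + d = w by omega] at h1
    rw [ha] at h1
    omega

/-- start of window `w` -/
def wst (h w : ℕ) : ℕ := 1 + 3 * (h * w) - (w + 1) / 2

/-- length of window `w` -/
def wln (h w : ℕ) : ℕ := if w % 2 = 0 then 3 * h - 1 else 3 * h

theorem wst_eq {h : ℕ} (hh : 1 ≤ h) (w : ℕ) : wst h w + (w + 1) / 2 = 1 + 3 * (h * w) := by
  unfold wst
  have : w ≤ h * w := Nat.le_mul_of_pos_left w hh
  omega

theorem wst_succ {h : ℕ} (hh : 1 ≤ h) (w : ℕ) : wst h (w + 1) = wst h w + wln h w := by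
  have h1 := wst_eq hh w
  have h2 := wst_eq hh (w + 1)
  have h3 : h * (w + 1) = h * w + h := by ring
  rw [h3] at h2
  unfold wln
  split_ifs with hw <;> omega

section
variable (h p : ℕ)

/-- window of the vertex in column `j` and row `i` -/
def vw (j i : ℕ) : ℕ := if (i + j) % 2 = 0 then i else 2 * p + 1 + i

/-- vertex labels -/
def mlv (j i : ℕ) : ℕ := wst h (vw p j i) + j / 2

/-- labels of horizontal edges -/
def mlh (j i : ℕ) : ℕ := wst h (2 * (2 * p - i)) + (h + (2 * h - 2 - j))

/-- offset of a vertical edge -/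
def vo (j : ℕ) : ℕ := if j % 2 = 0 then j + 1 else j - 1

/-- labels of vertical edges -/
def mlw (j i : ℕ) : ℕ := wst h (2 * (2 * p - i) - 1) + (h + (2 * h - 1 - vo j))

end

theorem mixed_emt (h p : ℕ) (hh : 1 ≤ h) :
    EdgeMagicTotal (pathGraph (2 * h) □ pathGraph (2 * p + 1)) := by
  refine grid_emt (2 * h) (2 * p + 1) (mlv h p) (mlh h p) (mlw h p)
    (3 * h + (3 * (h * (6 * p + 1))) - 3 * p) ?_ ?_ ?_ ?_
  · -- injectivity
    have key : ∀ x : (Fin (2 * h) × Fin (2 * p + 1)) ⊕ GridIdx (2 * h) (2 * p + 1),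
        ∃ w o, tableFun (2 * h) (2 * p + 1) (mlv h p) (mlh h p) (mlw h p) x = wst h w + o ∧
          o < wln h w ∧
          ((∃ q : Fin (2 * h) × Fin (2 * p + 1), x = Sum.inl q ∧ w = vw p q.1 q.2 ∧ o = q.1.1 / 2
              ∧ o < h) ∨
           (∃ q : Fin (2 * h - 1) × Fin (2 * p + 1), x = Sum.inr (Sum.inl q) ∧
              w = 2 * (2 * p - q.2.1) ∧ o = h + (2 * h - 2 - q.1.1)) ∨
           (∃ q : Fin (2 * h) × Fin (2 * p + 1 - 1), x = Sum.inr (Sum.inr q) ∧
              w = 2 * (2 * p - q.2.1) - 1 ∧ o = h + (2 * h - 1 - vo q.1.1))) := by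
      rintro (q | q | q)
      · refine ⟨vw p q.1 q.2, q.1.1 / 2, rfl, ?_, Or.inl ⟨q, rfl, rfl, rfl, ?_⟩⟩
        · have := q.1.2
          unfold wln
          split_ifs <;> omega
        · have := q.1.2
          omega
      · refine ⟨2 * (2 * p - q.2.1), h + (2 * h - 2 - q.1.1), rfl, ?_,
          Or.inr (Or.inl ⟨q, rfl, rfl, rfl⟩)⟩
        have := q.1.2
        unfold wln
        split_ifs <;> omega
      · refine ⟨2 * (2 * p - q.2.1) - 1, h + (2 * h - 1 - vo q.1.1), rfl, ?_,
          Or.inr (Or.inr ⟨q, rfl, rfl, rfl⟩)⟩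
        have h1 := q.1.2
        have h2 := q.2.2
        unfold wln
        split_ifs <;> omega
    intro x y hxy
    obtain ⟨w, o, e1, l1, c1⟩ := key x
    obtain ⟨w', o', e2, l2, c2⟩ := key y
    rw [e1, e2] at hxy
    obtain ⟨hw, ho⟩ := win_inj (wst_succ hh) l1 l2 hxy
    rcases c1 with ⟨⟨j, i⟩, rfl, hq, hr, hs⟩ | ⟨⟨j, i⟩, rfl, hq, hr⟩ | ⟨⟨j, i⟩, rfl, hq, hr⟩ <;>
    rcases c2 with ⟨⟨j', i'⟩, rfl, hq', hr', hs'⟩ | ⟨⟨j', i'⟩, rfl, hq', hr'⟩ |
      ⟨⟨j', i'⟩, rfl, hq', hr'⟩ <;>
    simp only at hq hr hq' hr'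
    · have hj := j.2
      have hi := i.2
      have hj' := j'.2
      have hi' := i'.2
      unfold vw at hq hq'
      have : j.1 = j'.1 ∧ i.1 = i'.1 := by
        split_ifs at hq hq' <;> omega
      rw [Fin.ext this.1, Fin.ext this.2]
    · omega
    · omega
    · omega
    · have hj := j.2
      have hi := i.2
      have hj' := j'.2
      have hi' := i'.2
      have : j.1 = j'.1 ∧ i.1 = i'.1 := by omega
      rw [Fin.ext this.1, Fin.ext this.2]
    · have hi := i.2
      have hi' := i'.2
      omega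
    · omega
    · have hi := i.2
      have hi' := i'.2
      omega
    · have hj := j.2
      have hi := i.2
      have hj' := j'.2
      have hi' := i'.2
      unfold vo at hr hr'
      have : j.1 = j'.1 ∧ i.1 = i'.1 := by
        split_ifs at hr hr' <;> omega
      rw [Fin.ext this.1, Fin.ext this.2]
  · -- range
    have hN : 2 * h * (2 * p + 1) + ((2 * h - 1) * (2 * p + 1) + 2 * h * (2 * p + 1 - 1))
        = wst h (4 * p + 1) + (h - 1) := by
      have h1 := wst_eq hh (4 * p + 1)
      have h2 : h * (4 * p + 1) = 4 * (h * p) + h := by ring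
      rw [h2] at h1
      have h3 : 2 * h * (2 * p + 1) = 4 * (h * p) + 2 * h := by ring
      have h4 : (2 * h - 1) * (2 * p + 1) + (2 * p + 1) = 4 * (h * p) + 2 * h := by
        have : 2 * h - 1 + 1 = 2 * h := by omega
        calc (2 * h - 1) * (2 * p + 1) + (2 * p + 1) = (2 * h - 1 + 1) * (2 * p + 1) := by ring
          _ = 2 * h * (2 * p + 1) := by rw [this]
          _ = _ := h3
      have h5 : 2 * h * (2 * p + 1 - 1) = 4 * (h * p) := by
        rw [Nat.add_sub_cancel]; ring
      have h6 : p ≤ h * p := Nat.le_mul_of_pos_left p hh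
      rw [h3, h5]
      omega
    rw [hN]
    have hmono : ∀ d w, wst h w ≤ wst h (w + d) := by
      intro d
      induction d with
      | zero => intro w; exact le_refl _
      | succ d ih =>
        intro w
        have := wst_succ hh (w + d)
        have := ih w
        rw [← add_assoc]
        omega
    have hpos : ∀ w, 1 ≤ wst h w := by
      intro w
      have := hmono w 0
      rw [zero_add] at this
      have h0 : wst h 0 = 1 := by simp [wst]
      omega
    have hlast : ∀ w, w ≤ 4 * p + 1 → wst h w ≤ wst h (4 * p + 1) := by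
      intro w hw
      obtain ⟨d, hd⟩ := Nat.exists_eq_add_of_le hw
      rw [hd]
      exact hmono d w
    have hlast' : ∀ w, w ≤ 4 * p → wst h w + wln h w ≤ wst h (4 * p + 1) := by
      intro w hw
      rw [← wst_succ hh]
      exact hlast _ (by omega)
    rintro (⟨j, i⟩ | ⟨j, i⟩ | ⟨j, i⟩)
    · have h1 := j.2
      have h2 := i.2
      have h3 : vw p j i ≤ 4 * p + 1 := by unfold vw; split_ifs <;> omega
      have h4 := hlast _ h3
      have h5 := hpos (vw p j i)
      simp only [tableFun, Sum.elim_inl, mlv, Set.mem_Icc]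
      omega
    · have h1 := j.2
      have h2 := i.2
      have h4 := hlast' (2 * (2 * p - i.1)) (by omega)
      have h5 := hpos (2 * (2 * p - i.1))
      have h6 : wln h (2 * (2 * p - i.1)) = 3 * h - 1 := by
        unfold wln
        rw [if_pos (by omega)]
      simp only [tableFun, Sum.elim_inl, Sum.elim_inr, mlh, Set.mem_Icc]
      omega
    · have h1 := j.2
      have h2 := i.2
      have h4 := hlast' (2 * (2 * p - i.1) - 1) (by omega)
      have h5 := hpos (2 * (2 * p - i.1) - 1)
      have h6 : wln h (2 * (2 * p - i.1) - 1) = 3 * h := by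
        unfold wln
        rw [if_neg (by omega)]
      simp only [tableFun, Sum.elim_inr, mlw, Set.mem_Icc]
      omega
  · -- horizontal edges
    intro j i hj hi
    unfold mlv mlh
    obtain ⟨r, hr⟩ := Nat.exists_eq_add_of_le (show i ≤ 2 * p by omega)
    have e1 := wst_eq hh i
    have e2 := wst_eq hh (2 * p + 1 + i)
    have e3 := wst_eq hh (2 * (2 * p - i))
    have f2 : h * (2 * p + 1 + i) = 2 * (h * p) + h + h * i := by ring
    have f3 : h * (2 * (2 * p - i)) = 2 * (h * r) := by
      rw [show 2 * p - i = r by omega]; ring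
    have f4 : 2 * (h * p) = h * i + h * r := by
      calc 2 * (h * p) = h * (2 * p) := by ring
        _ = h * (i + r) := by rw [hr]
        _ = _ := by ring
    have f5 : h * (6 * p + 1) = 6 * (h * p) + h := by ring
    have f6 : p ≤ h * p := Nat.le_mul_of_pos_left p hh
    rw [f2] at e2
    rw [f3] at e3
    rw [f5]
    unfold vw
    split_ifs <;> omega
  · -- vertical edges
    intro j i hj hi
    unfold mlv mlw
    obtain ⟨r, hr⟩ := Nat.exists_eq_add_of_le (show i + 1 ≤ 2 * p by omega)
    have e1 := wst_eq hh i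
    have e1' := wst_eq hh (i + 1)
    have e2 := wst_eq hh (2 * p + 1 + i)
    have e2' := wst_eq hh (2 * p + 1 + (i + 1))
    have e3 := wst_eq hh (2 * (2 * p - i) - 1)
    have f1 : h * (i + 1) = h * i + h := by ring
    have f2 : h * (2 * p + 1 + i) = 2 * (h * p) + h + h * i := by ring
    have f2' : h * (2 * p + 1 + (i + 1)) = 2 * (h * p) + 2 * h + h * i := by ring
    have f3 : h * (2 * (2 * p - i) - 1) = 2 * (h * r) + h := by
      rw [show 2 * (2 * p - i) - 1 = 2 * r + 1 by omega]; ring
    have f4 : 2 * (h * p) = h * i + h + h * r := by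
      calc 2 * (h * p) = h * (2 * p) := by ring
        _ = h * (i + 1 + r) := by rw [hr]
        _ = _ := by ring
    have f5 : h * (6 * p + 1) = 6 * (h * p) + h := by ring
    have f6 : p ≤ h * p := Nat.le_mul_of_pos_left p hh
    rw [f1] at e1'
    rw [f2] at e2
    rw [f2'] at e2'
    rw [f3] at e3
    rw [f5]
    unfold vw vo
    split_ifs <;> omega

/-- Every grid `P_m □ P_n` with `m + n` odd is edge-magic total. -/
theorem grid_emt_of_odd_add {m n : ℕ} (hm : 1 ≤ m) (hn : 1 ≤ n) (hodd : Odd (m + n)) :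
    EdgeMagicTotal (pathGraph m □ pathGraph n) := by
  obtain ⟨t, ht⟩ := hodd
  rcases Nat.even_or_odd m with he | ho
  · obtain ⟨h, hh⟩ := he
    obtain ⟨p, hp⟩ : ∃ p, n = 2 * p + 1 := ⟨t - h, by omega⟩
    have := mixed_emt h p (by omega)
    rw [show m = 2 * h by omega, hp]
    exact this
  · obtain ⟨p, hp⟩ := ho
    obtain ⟨h, hh⟩ : ∃ h, n = 2 * h := ⟨t - p, by omega⟩
    have := grid_comm (mixed_emt h p (by omega))
    rw [hp, hh]
    exact this

end Run7.h138
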