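import Mathlib

/-!
Five matrices in `SL₂(ℤ[1/17])` in 17-adic ping-pong position: every nontrivial reduced word in
them has no fixed vector in `ℝ² \ {0}`.
-/

set_option autoImplicit false

namespace Run7.h138

open Matrix

/-- The integer matrices (17 times the generators and their inverses). -/
def LM : Fin 5 × Bool → Matrix (Fin 2) (Fin 2) ℤ
  | (0, true) => !![3, 20; -11, 23]
  | (0, false) => !![23, -20; 11, 3]
  | (1, true) => !![15, -1; -11, 20]
  | (1, false) => !![20, 1; 11, 15]
  | (2, true) => !![16, 3; 5, 19]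
  | (2, false) => !![19, -3; -5, 16]
  | (3, true) => !![0, 17; -17, 16]
  | (3, false) => !![16, -17; 17, 0]
  | (4, true) => !![13, -6; 7, 19]
  | (4, false) => !![19, 6; -7, 13]

/-- Image direction mod 17. -/
def uu : Fin 5 × Bool → Fin 2 → ZMod 17
  | (0, true) => ![1, 2]
  | (0, false) => ![1, 16]
  | (1, true) => ![1, 14]
  | (1, false) => ![1, 15]
  | (2, true) => ![1, 12]
  | (2, false) => ![1, 6]
  | (3, true) => ![0, 1]
  | (3, false) => ![1, 0]
  | (4, true) => ![1, 11]
  | (4, false) => ![1, 5]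

/-- The covector mod 17. -/
def vv : Fin 5 × Bool → Fin 2 → ZMod 17
  | (0, true) => ![3, 3]
  | (0, false) => ![6, 14]
  | (1, true) => ![15, 16]
  | (1, false) => ![3, 1]
  | (2, true) => ![16, 3]
  | (2, false) => ![2, 14]
  | (3, true) => ![0, 16]
  | (3, false) => ![16, 0]
  | (4, true) => ![13, 11]
  | (4, false) => ![2, 6]

theorem LM_mod (l : Fin 5 × Bool) :
    (LM l).map (fun z : ℤ => (z : ZMod 17)) = vecMulVec (uu l) (vv l) := by
  revert l
  decide

theorem vu_ne (l m : Fin 5 × Bool) (h : l.1 = m.1 → l.2 = m.2) :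
    vv l ⬝ᵥ uu m ≠ 0 := by
  revert l m
  decide

theorem LM_det (l : Fin 5 × Bool) : (LM l).det = 17 ^ 2 := by
  revert l
  decide

theorem LM_inv_mul (l : Fin 5 × Bool) :
    LM (l.1, !l.2) * LM l = 17 ^ 2 • (1 : Matrix (Fin 2) (Fin 2) ℤ) := by
  revert l
  decide

/-- Product of the letters of a word. -/
def wprod (L : List (Fin 5 × Bool)) : Matrix (Fin 2) (Fin 2) ℤ := (L.map LM).prod

theorem wprod_cons (a : Fin 5 × Bool) (L : List (Fin 5 × Bool)) :
    wprod (a :: L) = LM a * wprod L := by
  simp [wprod]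

theorem wprod_append (L L' : List (Fin 5 × Bool)) :
    wprod (L ++ L') = wprod L * wprod L' := by
  simp [wprod]

theorem wprod_singleton (a : Fin 5 × Bool) : wprod [a] = LM a := by
  simp [wprod]

theorem wprod_det (L : List (Fin 5 × Bool)) : (wprod L).det = (17 ^ L.length) ^ 2 := by
  induction L with
  | nil => simp [wprod]
  | cons a L ih =>
    rw [wprod_cons, det_mul, ih, LM_det, List.length_cons]
    ring

theorem wprod_mod : ∀ (L : List (Fin 5 × Bool)) (a : Fin 5 × Bool),
    FreeGroup.IsReduced (a :: L) → ∃ c : ZMod 17, c ≠ 0 ∧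
      (wprod (a :: L)).map (fun z : ℤ => (z : ZMod 17))
        = c • vecMulVec (uu a) (vv ((a :: L).getLast (by simp))) := by
  intro L
  induction L with
  | nil =>
    intro a _
    refine ⟨1, by decide, ?_⟩
    rw [wprod_singleton, LM_mod, one_smul, List.getLast_singleton]
  | cons b L ih =>
    intro a h
    have h1 : FreeGroup.IsReduced (b :: L) := by
      have := h
      simp only [FreeGroup.IsReduced, List.isChain_cons_cons] at this ⊢
      exact this.2
    have h2 : a.1 = b.1 → a.2 = b.2 := by
      have := h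
      simp only [FreeGroup.IsReduced, List.isChain_cons_cons] at this
      exact this.1
    obtain ⟨c, hc, hcW⟩ := ih b h1
    have hne := vu_ne a b h2
    have : Fact (Nat.Prime 17) := ⟨by norm_num⟩
    refine ⟨c * (vv a ⬝ᵥ uu b), mul_ne_zero hc hne, ?_⟩
    have hmap : (wprod (a :: b :: L)).map (fun z : ℤ => (z : ZMod 17))
        = (LM a).map (fun z : ℤ => (z : ZMod 17))
          * (wprod (b :: L)).map (fun z : ℤ => (z : ZMod 17)) := by
      rw [wprod_cons]
      exact Matrix.map_mul (f := Int.castRingHom (ZMod 17))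
    have hlast : (a :: b :: L).getLast (by simp) = (b :: L).getLast (by simp) :=
      List.getLast_cons_cons
    rw [hmap, LM_mod, hcW, hlast, mul_smul_comm, vecMulVec_mul_vecMulVec]
    generalize vv ((b :: L).getLast (by simp)) = z
    ext i j
    simp only [Matrix.smul_apply, vecMulVec_apply, smul_eq_mul, Pi.smul_apply]
    ring

theorem no_fixed_cyc (L : List (Fin 5 × Bool)) (a : Fin 5 × Bool)
    (h : FreeGroup.IsReduced (a :: L))
    (hc : ((a :: L).getLast (by simp)).1 = a.1 → ((a :: L).getLast (by simp)).2 = a.2)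
    (x : Fin 2 → ℝ) (hx : x ≠ 0) :
    ((wprod (a :: L)).map (fun z : ℤ => (z : ℝ))) *ᵥ x ≠ (17 : ℝ) ^ (a :: L).length • x := by
  intro heq
  obtain ⟨c, hc0, hcW⟩ := wprod_mod L a h
  have hdet := wprod_det (a :: L)
  have hlen : (a :: L).length = L.length + 1 := rfl
  generalize hWdef : wprod (a :: L) = W at *
  rw [hlen] at *
  have hdetR : ((W.map (fun z : ℤ => (z : ℝ))) - (17 : ℝ) ^ (L.length + 1) • (1 : Matrix (Fin 2) (Fin 2) ℝ)).det = 0 := by
    rw [← Matrix.exists_mulVec_eq_zero_iff]
    refine ⟨x, hx, ?_⟩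
    rw [sub_mulVec, heq, smul_mulVec, one_mulVec, sub_self]
  rw [det_fin_two] at hdetR
  simp only [Matrix.sub_apply, Matrix.smul_apply, map_apply, one_apply_eq, smul_eq_mul, mul_one]
    at hdetR
  rw [one_apply_ne (by decide), one_apply_ne (by decide)] at hdetR
  have hZ : (W 0 0 - 17 ^ (L.length + 1)) * (W 1 1 - 17 ^ (L.length + 1)) - W 0 1 * W 1 0 = 0 := by
    have : ((((W 0 0 - 17 ^ (L.length + 1)) * (W 1 1 - 17 ^ (L.length + 1)) - W 0 1 * W 1 0 : ℤ)) : ℝ) = 0 := by
      push_cast
      linarith
    exact_mod_cast this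
  rw [det_fin_two] at hdet
  have hq : (17 : ℤ) ^ (L.length + 1) ≠ 0 := by positivity
  have htr : W 0 0 + W 1 1 = 2 * 17 ^ (L.length + 1) := by
    apply mul_left_cancel₀ hq
    linarith
  have htr2 : ((W 0 0 + W 1 1 : ℤ) : ZMod 17) = 0 := by
    rw [htr, pow_succ]
    push_cast
    have : (17 : ZMod 17) = 0 := by decide
    rw [this]; ring
  have h00 := congrFun (congrFun hcW 0) 0
  have h11 := congrFun (congrFun hcW 1) 1
  simp only [map_apply, Matrix.smul_apply, vecMulVec_apply, smul_eq_mul] at h00 h11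
  push_cast at htr2
  rw [h00, h11] at htr2
  have : Fact (Nat.Prime 17) := ⟨by norm_num⟩
  have hne := vu_ne _ a hc
  have hmul := mul_ne_zero hc0 hne
  apply hmul
  rw [← htr2]
  simp only [dotProduct, Fin.sum_univ_two]
  ring

theorem no_fixed (L : List (Fin 5 × Bool)) :
    L ≠ [] → FreeGroup.IsReduced L → ∀ x : Fin 2 → ℝ, x ≠ 0 →
    ((wprod L).map (fun z : ℤ => (z : ℝ))) *ᵥ x ≠ (17 : ℝ) ^ L.length • x := by
  induction L using List.bidirectionalRec with
  | nil => intro h; exact (h rfl).elim
  | singleton a =>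
    intro _ h x hx
    exact no_fixed_cyc [] a h (by simp) x hx
  | cons_append a l b ih =>
    intro _ h x hx
    by_cases hab : b.1 = a.1 → b.2 = a.2
    · have := no_fixed_cyc (l ++ [b]) a h (by simpa using hab) x hx
      exact this
    · -- b is the inverse of a
      have hab1 : b.1 = a.1 := by
        by_contra hne
        exact hab (fun h => (hne h).elim)
      have hab2 : b.2 ≠ a.2 := fun h2 => hab (fun _ => h2)
      have hba : b = (a.1, !a.2) := by
        rw [Prod.ext_iff]
        refine ⟨hab1, ?_⟩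
        revert hab2
        cases b.2 <;> cases a.2 <;> simp
      have hl : l ≠ [] := by
        rintro rfl
        simp only [FreeGroup.IsReduced, List.nil_append] at h
        have h' := (List.isChain_cons_cons.mp h).1
        exact hab2 (h' hab1.symm).symm
      have hlred : FreeGroup.IsReduced l := by
        have h' := h
        simp only [FreeGroup.IsReduced] at h' ⊢
        exact List.IsChain.left_of_append (List.IsChain.tail h')
      intro heq
      have hW : wprod (a :: (l ++ [b])) = LM a * wprod l * LM b := by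
        rw [wprod_cons, wprod_append, wprod_singleton, Matrix.mul_assoc]
      -- real matrices
      have hcast : ∀ A B : Matrix (Fin 2) (Fin 2) ℤ,
          (A * B).map (fun z : ℤ => (z : ℝ)) = A.map (fun z : ℤ => (z : ℝ)) * B.map (fun z : ℤ => (z : ℝ)) :=
        fun A B => Matrix.map_mul (f := Int.castRingHom ℝ)
      have hinv : (LM b).map (fun z : ℤ => (z : ℝ)) * (LM a).map (fun z : ℤ => (z : ℝ))
          = (17 : ℝ) ^ 2 • (1 : Matrix (Fin 2) (Fin 2) ℝ) := by
        rw [← hcast, hba, LM_inv_mul]
        ext i j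
        simp only [map_apply, Matrix.smul_apply, one_apply]
        split_ifs <;> norm_num
      set A := (LM a).map (fun z : ℤ => (z : ℝ)) with hA
      set B := (LM b).map (fun z : ℤ => (z : ℝ)) with hB
      set V := (wprod l).map (fun z : ℤ => (z : ℝ)) with hV
      rw [hW, hcast, hcast, ← hA, ← hB, ← hV] at heq
      have h1 : (B * (A * V * B)) *ᵥ x = (17 : ℝ) ^ (a :: (l ++ [b])).length • (B *ᵥ x) := by
        rw [← mulVec_mulVec, heq, mulVec_smul]
      have h2 : B * (A * V * B) = (17 : ℝ) ^ 2 • (V * B) := by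
        rw [Matrix.mul_assoc A V B, ← Matrix.mul_assoc B A, hinv, smul_mul, one_mul]
      rw [h2, smul_mulVec, ← mulVec_mulVec] at h1
      have h3 : (17 : ℝ) ^ (a :: (l ++ [b])).length = 17 ^ 2 * 17 ^ l.length := by
        rw [← pow_add]
        congr 1
        simp
        ring
      rw [h3, mul_smul] at h1
      have h4 : V *ᵥ (B *ᵥ x) = (17 : ℝ) ^ l.length • (B *ᵥ x) :=
        smul_right_injective _ (by norm_num : (17 : ℝ) ^ 2 ≠ 0) h1
      have hBx : B *ᵥ x ≠ 0 := by
        intro h0
        have h5 : (A * B) *ᵥ x = 0 := by rw [← mulVec_mulVec, h0, mulVec_zero]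
        have hinv' : A * B = (17 : ℝ) ^ 2 • (1 : Matrix (Fin 2) (Fin 2) ℝ) := by
          have haa : a = (b.1, !b.2) := by
            rw [hba]; simp
          rw [hA, hB, ← hcast, haa, LM_inv_mul]
          ext i j
          simp only [map_apply, Matrix.smul_apply, one_apply]
          split_ifs <;> norm_num
        rw [hinv', smul_mulVec, one_mulVec] at h5
        exact hx (by simpa using h5)
      exact ih hl hlred _ hBx h4

end Run7.h138
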