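import Mathlib

/-!
Combinatorial core: a free action of a free group on a set `Q` (inside a bigger space) such that
every point of `Q` has three distinct letters keeping it inside `Q` admits two
'children' maps with disjoint images.
-/

set_option autoImplicit false

namespace Run7.h138

open FreeGroup

theorem children {α X : Type*} [DecidableEq α] [Nonempty α] [MulAction (FreeGroup α) X]
    (Q : Set X)
    (free : ∀ x ∈ Q, ∀ w : FreeGroup α, w • x = x → w = 1)
    (three : ∀ x ∈ Q, ∃ a b c : α × Bool, a ≠ b ∧ a ≠ c ∧ b ≠ c ∧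
      FreeGroup.mk [a] • x ∈ Q ∧ FreeGroup.mk [b] • x ∈ Q ∧ FreeGroup.mk [c] • x ∈ Q) :
    ∃ φ ψ : X → α × Bool,
      (∀ x ∈ Q, FreeGroup.mk [φ x] • x ∈ Q ∧ FreeGroup.mk [ψ x] • x ∈ Q) ∧
      (∀ x ∈ Q, ∀ y ∈ Q, FreeGroup.mk [φ x] • x = FreeGroup.mk [φ y] • y → x = y) ∧
      (∀ x ∈ Q, ∀ y ∈ Q, FreeGroup.mk [ψ x] • x = FreeGroup.mk [ψ y] • y → x = y) ∧
      (∀ x ∈ Q, ∀ y ∈ Q, FreeGroup.mk [φ x] • x ≠ FreeGroup.mk [ψ y] • y) := by
  classical
  -- orbit representatives
  let S := MulAction.orbitRel (FreeGroup α) X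
  let r : X → X := fun x => (Quotient.mk S x).out
  have hr : ∀ x, ∃ w : FreeGroup α, w • r x = x := by
    intro x
    have h : S.r (r x) x := Quotient.mk_out (s := S) x
    have h2 : S.r x (r x) := S.symm h
    exact h2
  have hrr : ∀ (g : FreeGroup α) (x : X), r (g • x) = r x := by
    intro g x
    have : (Quotient.mk S (g • x)) = Quotient.mk S x := Quotient.sound ⟨g, rfl⟩
    simp only [r, this]
  choose W hW using hr
  have hWuniq : ∀ y ∈ Q, ∀ w : FreeGroup α, w • r y = y → w = W y := by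
    intro y hy w hw
    have h0 : (W y)⁻¹ • y = r y := by
      rw [inv_smul_eq_iff]; exact (hW y).symm
    have h1 : (w * (W y)⁻¹) • y = y := by
      rw [mul_smul, h0, hw]
    have h2 := free y hy _ h1
    exact mul_inv_eq_one.mp h2
  -- good letters
  let good : X → α × Bool → Prop := fun x a => ¬ W x ∈ startsWith (a.1, !a.2)
  have key : ∀ x y : X, ∀ a b : α × Bool, good x a → good y b →
      FreeGroup.mk [a] • x ∈ Q → FreeGroup.mk [a] • x = FreeGroup.mk [b] • y →
      a = b ∧ x = y := by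
    intro x y a b ha hb hQ hxy
    have h1 : FreeGroup.mk [a] * W x = W (FreeGroup.mk [a] • x) := by
      apply hWuniq _ hQ
      rw [hrr, mul_smul, hW]
    have h2 : FreeGroup.mk [b] * W y = W (FreeGroup.mk [a] • x) := by
      apply hWuniq _ hQ
      rw [hxy, hrr, mul_smul, hW]
    have h3 := startsWith_mk_mul (W x) ha
    have h4 := startsWith_mk_mul (W y) hb
    rw [h1] at h3
    rw [h2] at h4
    have hab : a = b := by
      simp only [startsWith, Set.mem_ofPred_eq] at h3 h4
      rw [h3] at h4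
      exact Option.some.inj h4
    subst hab
    exact ⟨rfl, MulAction.injective _ hxy⟩
  have two : ∀ x ∈ Q, ∃ a b : α × Bool, a ≠ b ∧ good x a ∧ good x b ∧
      FreeGroup.mk [a] • x ∈ Q ∧ FreeGroup.mk [b] • x ∈ Q := by
    intro x hx
    obtain ⟨a, b, c, hab, hac, hbc, ha, hb, hc⟩ := three x hx
    have hbad : ∀ a b : α × Bool, a ≠ b → ¬ good x a → ¬ good x b → False := by
      intro a b hab h1 h2
      simp only [good, startsWith, Set.mem_ofPred_eq, not_not] at h1 h2
      rw [h1] at h2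
      have h3 := Option.some.inj h2
      apply hab
      rw [Prod.ext_iff] at h3 ⊢
      simpa using h3
    by_cases h1 : good x a
    · by_cases h2 : good x b
      · exact ⟨a, b, hab, h1, h2, ha, hb⟩
      · by_cases h3 : good x c
        · exact ⟨a, c, hac, h1, h3, ha, hc⟩
        · exact (hbad b c hbc h2 h3).elim
    · by_cases h2 : good x b
      · by_cases h3 : good x c
        · exact ⟨b, c, hbc, h2, h3, hb, hc⟩
        · exact (hbad a c hac h1 h3).elim
      · exact (hbad a b hab h1 h2).elim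
  have two' : ∀ x : X, ∃ p : (α × Bool) × (α × Bool), x ∈ Q →
      p.1 ≠ p.2 ∧ good x p.1 ∧ good x p.2 ∧
      FreeGroup.mk [p.1] • x ∈ Q ∧ FreeGroup.mk [p.2] • x ∈ Q := by
    intro x
    by_cases hx : x ∈ Q
    · obtain ⟨a, b, h⟩ := two x hx
      exact ⟨(a, b), fun _ => h⟩
    · exact ⟨((Classical.arbitrary α, true), (Classical.arbitrary α, true)),
        fun h => (hx h).elim⟩
  choose P hP using two'
  refine ⟨fun x => (P x).1, fun x => (P x).2, ?_, ?_, ?_, ?_⟩
  · intro x hx
    exact ⟨(hP x hx).2.2.2.1, (hP x hx).2.2.2.2⟩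
  · intro x hx y hy h
    exact (key x y _ _ (hP x hx).2.1 (hP y hy).2.1 (hP x hx).2.2.2.1 h).2
  · intro x hx y hy h
    exact (key x y _ _ (hP x hx).2.2.1 (hP y hy).2.2.1 (hP x hx).2.2.2.2 h).2
  · intro x hx y hy h
    obtain ⟨h1, h2⟩ := key x y _ _ (hP x hx).2.1 (hP y hy).2.2.1 (hP x hx).2.2.2.1 h
    subst h2
    exact (hP x hx).1 h1

end Run7.h138
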