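import Pool.Agent.Run7.h138.PingPong
import Pool.Agent.Run7.h138.TwoChildren

/-!
The free group on five letters acts on the plane through `SL₂(ℤ[1/17])`, freely off the origin,
and every point of the open unit square has three letters keeping it in the square.
-/

set_option autoImplicit false

namespace Run7.h138

open Matrix

/-- The five generators. -/
noncomputable def gen (i : Fin 5) : Matrix.SpecialLinearGroup (Fin 2) ℝ :=
  ⟨(17 : ℝ)⁻¹ • (LM (i, true)).map (fun z : ℤ => (z : ℝ)), by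
    have h := LM_det (i, true)
    have h2 : ((LM (i, true)).map (fun z : ℤ => (z : ℝ))).det = 17 ^ 2 := by
      have h3 : ((LM (i, true)).map (fun z : ℤ => (z : ℝ))).det = (((LM (i, true)).det : ℤ) : ℝ) := by
        rw [det_fin_two, det_fin_two]
        simp only [map_apply]
        push_cast
        ring
      rw [h3, h]
      norm_num
    rw [det_smul, h2]
    simp⟩

/-- The representation. -/
noncomputable def rep : FreeGroup (Fin 5) →* Matrix.SpecialLinearGroup (Fin 2) ℝ :=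
  FreeGroup.lift gen

theorem rep_letter (l : Fin 5 × Bool) :
    ((rep (FreeGroup.mk [l]) : Matrix.SpecialLinearGroup (Fin 2) ℝ) : Matrix (Fin 2) (Fin 2) ℝ)
      = (17 : ℝ)⁻¹ • (LM l).map (fun z : ℤ => (z : ℝ)) := by
  obtain ⟨i, b⟩ := l
  have h : rep (FreeGroup.mk [(i, b)]) = cond b (gen i) (gen i)⁻¹ := by
    simp [rep, FreeGroup.lift_mk]
  rw [h]
  cases b
  · simp only [cond_false, Matrix.SpecialLinearGroup.coe_inv, gen]
    ext r c
    rw [adjugate_fin_two]
    fin_cases i <;> fin_cases r <;> fin_cases c <;> simp [LM]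
  · rfl

theorem rep_mk (L : List (Fin 5 × Bool)) :
    ((rep (FreeGroup.mk L) : Matrix.SpecialLinearGroup (Fin 2) ℝ) : Matrix (Fin 2) (Fin 2) ℝ)
      = ((17 : ℝ)⁻¹ ^ L.length) • (wprod L).map (fun z : ℤ => (z : ℝ)) := by
  induction L with
  | nil =>
    have h : FreeGroup.mk ([] : List (Fin 5 × Bool)) = 1 := rfl
    rw [h, map_one]
    ext i j
    simp [wprod, one_apply]
  | cons a L ih =>
    have h : FreeGroup.mk (a :: L) = FreeGroup.mk [a] * FreeGroup.mk L := by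
      rw [FreeGroup.mul_mk]; rfl
    rw [h, map_mul, Matrix.SpecialLinearGroup.coe_mul, ih, rep_letter, wprod_cons]
    have hcast : ∀ A B : Matrix (Fin 2) (Fin 2) ℤ,
          (A * B).map (fun z : ℤ => (z : ℝ)) = A.map (fun z : ℤ => (z : ℝ)) * B.map (fun z : ℤ => (z : ℝ)) :=
        fun A B => Matrix.map_mul (f := Int.castRingHom ℝ)
    rw [hcast, smul_mul_smul_comm, List.length_cons, pow_succ']

/-- The action on the plane. -/
@[reducible] noncomputable def planeAction : MulAction (FreeGroup (Fin 5)) (Fin 2 → ℝ) where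
  smul w x := ((rep w : Matrix.SpecialLinearGroup (Fin 2) ℝ) : Matrix (Fin 2) (Fin 2) ℝ) *ᵥ x
  one_smul x := by
    show ((rep 1 : Matrix.SpecialLinearGroup (Fin 2) ℝ) : Matrix (Fin 2) (Fin 2) ℝ) *ᵥ x = x
    rw [map_one, Matrix.SpecialLinearGroup.coe_one, one_mulVec]
  mul_smul v w x := by
    show ((rep (v * w) : Matrix.SpecialLinearGroup (Fin 2) ℝ) : Matrix (Fin 2) (Fin 2) ℝ) *ᵥ x =
      ((rep v : Matrix.SpecialLinearGroup (Fin 2) ℝ) : Matrix (Fin 2) (Fin 2) ℝ) *ᵥ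
        (((rep w : Matrix.SpecialLinearGroup (Fin 2) ℝ) : Matrix (Fin 2) (Fin 2) ℝ) *ᵥ x)
    rw [map_mul, Matrix.SpecialLinearGroup.coe_mul, mulVec_mulVec]

theorem rep_free (w : FreeGroup (Fin 5)) (x : Fin 2 → ℝ) (hx : x ≠ 0)
    (h : ((rep w : Matrix.SpecialLinearGroup (Fin 2) ℝ) : Matrix (Fin 2) (Fin 2) ℝ) *ᵥ x = x) :
    w = 1 := by
  by_contra hw
  have hL : w.toWord ≠ [] := by
    intro h0
    exact hw (FreeGroup.toWord_eq_nil_iff.mp h0)
  have hred : FreeGroup.IsReduced w.toWord := FreeGroup.isReduced_toWord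
  apply no_fixed w.toWord hL hred x hx
  rw [← FreeGroup.mk_toWord (x := w), rep_mk, smul_mulVec] at h
  have h17 : (17 : ℝ) ^ w.toWord.length ≠ 0 := by positivity
  calc _ = (17 : ℝ) ^ w.toWord.length • ((17 : ℝ)⁻¹ ^ w.toWord.length •
        ((wprod w.toWord).map (fun z : ℤ => (z : ℝ))) *ᵥ x) := by
          rw [smul_smul, inv_pow, mul_inv_cancel₀ h17, one_smul]
    _ = _ := by rw [h]

/-- The open unit square. -/
def Q : Set (Fin 2 → ℝ) := {v : Fin 2 → ℝ | ∀ k, 0 < v k ∧ v k < 1}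

theorem letter_mem (l : Fin 5 × Bool) (x : Fin 2 → ℝ)
    (h1 : 0 < (LM l 0 0 : ℝ) * x 0 + (LM l 0 1 : ℝ) * x 1)
    (h2 : (LM l 0 0 : ℝ) * x 0 + (LM l 0 1 : ℝ) * x 1 < 17)
    (h3 : 0 < (LM l 1 0 : ℝ) * x 0 + (LM l 1 1 : ℝ) * x 1)
    (h4 : (LM l 1 0 : ℝ) * x 0 + (LM l 1 1 : ℝ) * x 1 < 17) :
    ((rep (FreeGroup.mk [l]) : Matrix.SpecialLinearGroup (Fin 2) ℝ) :
      Matrix (Fin 2) (Fin 2) ℝ) *ᵥ x ∈ Q := by
  rw [rep_letter, smul_mulVec]
  intro k
  have hk : ∀ k, ((17 : ℝ)⁻¹ • (((LM l).map (fun z : ℤ => (z : ℝ))) *ᵥ x)) k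
      = (17 : ℝ)⁻¹ * ((LM l k 0 : ℝ) * x 0 + (LM l k 1 : ℝ) * x 1) := by
    intro k
    rw [Pi.smul_apply, smul_eq_mul, mulVec, dotProduct, Fin.sum_univ_two, map_apply, map_apply]
  rw [hk]
  fin_cases k
  · constructor
    · exact mul_pos (by norm_num) h1
    · have : (17 : ℝ)⁻¹ * ((LM l 0 0 : ℝ) * x 0 + (LM l 0 1 : ℝ) * x 1) < 17⁻¹ * 17 :=
        mul_lt_mul_of_pos_left h2 (by norm_num)
      simpa using this
  · constructor
    · exact mul_pos (by norm_num) h3
    · have : (17 : ℝ)⁻¹ * ((LM l 1 0 : ℝ) * x 0 + (LM l 1 1 : ℝ) * x 1) < 17⁻¹ * 17 :=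
        mul_lt_mul_of_pos_left h4 (by norm_num)
      simpa using this

theorem three_letters (x : Fin 2 → ℝ) (hx : x ∈ Q) :
    ∃ a b c : Fin 5 × Bool, a ≠ b ∧ a ≠ c ∧ b ≠ c ∧
      ((rep (FreeGroup.mk [a]) : Matrix.SpecialLinearGroup (Fin 2) ℝ) :
        Matrix (Fin 2) (Fin 2) ℝ) *ᵥ x ∈ Q ∧
      ((rep (FreeGroup.mk [b]) : Matrix.SpecialLinearGroup (Fin 2) ℝ) :
        Matrix (Fin 2) (Fin 2) ℝ) *ᵥ x ∈ Q ∧
      ((rep (FreeGroup.mk [c]) : Matrix.SpecialLinearGroup (Fin 2) ℝ) :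
        Matrix (Fin 2) (Fin 2) ℝ) *ᵥ x ∈ Q := by
  obtain ⟨ha0, ha1⟩ := hx 0
  obtain ⟨hb0, hb1⟩ := hx 1
  rcases le_or_gt (3 * x 1) (x 0) with h1 | h1
  · refine ⟨(3, false), (4, true), (2, true), by decide, by decide, by decide, ?_, ?_, ?_⟩ <;>
      apply letter_mem <;> simp [LM] <;> linarith
  rcases le_or_gt (19 * x 1) (10 * x 0) with h2 | h2
  · refine ⟨(0, false), (3, false), (4, true), by decide, by decide, by decide, ?_, ?_, ?_⟩ <;>
      apply letter_mem <;> simp [LM] <;> linarith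
  rcases le_or_gt (10 * x 1) (7 * x 0) with h3 | h3
  · refine ⟨(0, false), (3, false), (0, true), by decide, by decide, by decide, ?_, ?_, ?_⟩ <;>
      apply letter_mem <;> simp [LM] <;> linarith
  rcases le_or_gt (9 * x 1) (10 * x 0) with h4 | h4
  · refine ⟨(2, false), (1, true), (0, false), by decide, by decide, by decide, ?_, ?_, ?_⟩ <;>
      apply letter_mem <;> simp [LM] <;> linarith
  rcases le_or_gt (3 * x 1) (11 * x 0) with h5 | h5
  · refine ⟨(3, true), (2, false), (1, true), by decide, by decide, by decide, ?_, ?_, ?_⟩ <;>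
      apply letter_mem <;> simp [LM] <;> linarith
  rcases le_or_gt (x 1) (6 * x 0) with h6 | h6
  · refine ⟨(4, false), (3, true), (2, false), by decide, by decide, by decide, ?_, ?_, ?_⟩ <;>
      apply letter_mem <;> simp [LM] <;> linarith
  · refine ⟨(4, false), (3, true), (1, false), by decide, by decide, by decide, ?_, ?_, ?_⟩ <;>
      apply letter_mem <;> simp [LM] <;> linarith

end Run7.h138
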